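import Pool.Agent.Helper44.TOT.Defs

/-! # TOT-T5: TypeB2a (from LM and Cover3) -/

set_option autoImplicit false

namespace Pool.Agent.Helper30.TOT

open Pool.Agent.Helper44.TOT Filter

noncomputable section

/-- elementary conditions for large `x` -/
theorem large (A' : ℕ) :
    ∃ X0 : ℕ, ∀ x : ℕ, X0 ≤ x → 400 ≤ Real.log x ∧ (ll x) ^ A' ≤ Real.log x / 20 := by
  have h1 : Tendsto (fun x : ℕ => Real.log (x : ℝ)) atTop atTop :=
    Real.tendsto_log_atTop.comp tendsto_natCast_atTop_atTop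
  have h2 : (fun y : ℝ => (Real.log y) ^ A') =o[atTop] (fun y => y) := Real.isLittleO_pow_log_id_atTop
  have h3 := h2.def (show (0 : ℝ) < 1 / 20 by norm_num)
  have h4 := h1.eventually h3
  have h5 := h1.eventually (eventually_ge_atTop 400)
  obtain ⟨X0, hX⟩ := eventually_atTop.1 (h4.and h5)
  refine ⟨X0, fun x hx => ?_⟩
  obtain ⟨h6, h7⟩ := hX x hx
  refine ⟨h7, ?_⟩
  rw [Real.norm_eq_abs, Real.norm_eq_abs, abs_of_nonneg (show 0 ≤ Real.log (x : ℝ) by linarith)]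
    at h6
  have := le_abs_self ((Real.log (Real.log (x : ℝ))) ^ A')
  unfold ll
  linarith only [h6, this]

theorem rpow_exp {x : ℕ} (hx : 0 < (x : ℝ)) (r : ℝ) : (x : ℝ) ^ r = Real.exp (Real.log x * r) :=
  Real.rpow_def_of_pos hx r

/-- the tail bound at one dyadic block -/
theorem blk_le {x a : ℕ} {C0 ρ ι uB : ℝ} {b : ℕ → ℝ} (hC : Cst a C0 ρ ι)
    (hT : Tail x a C0 ρ ι uB b) (huB : uB ≤ 1 / 40) (hL : 400 ≤ Real.log x) {Ba : ℝ}
    (hBa : 0 < Ba) (y : ℕ) (h1 : (x : ℝ) ^ ((1 : ℝ) / 4) ≤ y) (h2 : y < x) :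
    (blk (fun q => Ba ≤ b q) y : ℝ) ≤
      C0 * Real.exp (-(((1 - ι) * Ba) ^ a)) * (4 * y / Real.log x) := by
  have hx0 : (0 : ℝ) < x := by
    rcases Nat.eq_zero_or_pos x with h | h
    · rw [h] at hL
      simp at hL
      linarith only [hL]
    · exact_mod_cast h
  have hx1 : (1 : ℝ) ≤ x := by
    by_contra h
    push Not at h
    have := Real.log_nonpos hx0.le h.le
    linarith
  have h3 : (x : ℝ) ^ uB ≤ y :=
    le_trans (Real.rpow_le_rpow_of_exponent_le hx1 (by linarith)) h1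
  have hy0 : (0 : ℝ) < y := lt_of_lt_of_le (Real.rpow_pos_of_pos hx0 _) h1
  have hly : Real.log x / 4 ≤ Real.log y := by
    have := Real.log_le_log (Real.rpow_pos_of_pos hx0 _) h1
    rw [Real.log_rpow hx0] at this
    linarith only [this]
  have hly0 : 0 < Real.log y := by linarith only [hL, hly]
  have hlag : 0 ≤ Real.log (Real.log x / Real.log y) := by
    refine Real.log_nonneg ?_
    rw [le_div_iff₀ hly0, one_mul]
    exact Real.log_le_log hy0 (by exact_mod_cast h2.le)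
  have h4 := hT.t1 y Ba h3 h2 hBa
  refine h4.trans ?_
  have hρ := hC.hρ
  have hι := hC.hι'
  have hC0 := hC.hC0
  have h5 : ((1 - ι) * Ba) ^ a ≤
      ((1 - ι) * (Ba + ρ * Real.log (Real.log x / Real.log y))) ^ a := by
    refine pow_le_pow_left₀ (mul_nonneg (by linarith only [hι]) hBa.le) ?_ a
    refine mul_le_mul_of_nonneg_left ?_ (by linarith only [hι])
    have : 0 ≤ ρ * Real.log (Real.log x / Real.log y) := mul_nonneg (by linarith) hlag
    linarith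
  have h6 : (y : ℝ) / Real.log y ≤ 4 * y / Real.log x := by
    rw [div_le_div_iff₀ hly0 (by linarith)]
    nlinarith only [hly]
  refine mul_le_mul ?_ h6 (div_nonneg hy0.le hly0.le) (by positivity)
  exact mul_le_mul_of_nonneg_left (Real.exp_le_exp.2 (neg_le_neg h5)) (by linarith only [hC0])

/-- the contribution of one prime `l` and one dyadic range of `k` -/
theorem block (hCov : Cover3) {x A A' C M1 : ℕ} {N : Finset ℕ} {X D : ℝ} {a : ℕ}
    {C0 ρ ι uB : ℝ} {b : ℕ → ℝ} {z δ : ℝ} (hC : Cst a C0 ρ ι)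
    (H : TH x A A' C M1 N X D a C0 ρ ι uB b z δ) (hL : 400 ≤ Real.log x)
    (hs : (ll x) ^ A' ≤ Real.log x / 20) {Ba : ℝ} (hBa : 0 < Ba) (hBaz : Ba ≤ z)
    (l j : ℕ) (hl : l.Prime) (hlx : (x : ℝ) ^ uB ≤ l) (hl2 : (l : ℝ) ≤ (x : ℝ) ^ ((1 : ℝ) / 2))
    (S : Finset ℕ) (hSN : S ⊆ N)
    (hS : ∀ n ∈ S, ∃ k q : ℕ, q.Prime ∧ n = l * k * q ∧ M1 < k ∧
      (x : ℝ) ^ ((9 : ℝ) / 10) < ((l : ℝ) * q) ∧ Ba ≤ b q ∧ Nat.clog 2 k = j) :
    (S.card : ℝ) ≤ D * (14 * C0 * Real.exp (-(((1 - ι) * Ba) ^ a))) * (1 + z ^ a) * X /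
      (l * Real.log x) ∧ (S.Nonempty → ((j : ℝ) + 1) ≤ 15 / 100 * Real.log x) := by
  have hx0 : (0 : ℝ) < x := by
    rcases Nat.eq_zero_or_pos x with h | h
    · rw [h] at hL
      simp at hL
      linarith only [hL]
    · exact_mod_cast h
  have hx1 : (1 : ℝ) ≤ x := by
    by_contra h
    push Not at h
    have := Real.log_nonpos hx0.le h.le
    linarith
  have hρ := hC.hρ
  have hι := hC.hι'
  have hι0 := hC.hι
  have hC0 := hC.hC0
  have hz := H.hz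
  have hl0 : (0 : ℝ) < l := by exact_mod_cast hl.pos
  have hl2' : (2 : ℝ) ≤ l := by exact_mod_cast hl.two_le
  have hX0 : 0 < X := lt_of_lt_of_le (mul_pos hx0 (Real.exp_pos _)) H.leX
  rcases S.eq_empty_or_nonempty with hSe | hSn
  · subst hSe
    refine ⟨?_, fun h => absurd h Finset.not_nonempty_empty⟩
    have hD := H.D0
    simp only [Finset.card_empty, Nat.cast_zero]
    positivity
  -- sizes
  obtain ⟨n0, hn0⟩ := hSn
  obtain ⟨k0, q0, hq0, hnk0, hMk0, hlq0, hbq0, hcl0⟩ := hS n0 hn0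
  have hkx : ∀ k q : ℕ, l * k * q ∈ N → (x : ℝ) ^ ((9 : ℝ) / 10) < ((l : ℝ) * q) →
      (k : ℝ) < (x : ℝ) ^ ((1 : ℝ) / 10) := by
    intro k q hN hlq
    by_contra hk
    push Not at hk
    have h1 := (H.adm.rng _ hN).2
    push_cast at h1
    have h2 : (x : ℝ) ^ ((1 : ℝ) / 10) * (x : ℝ) ^ ((9 : ℝ) / 10) = x := by
      rw [← Real.rpow_add hx0]
      norm_num
    have h3 : (x : ℝ) ^ ((1 : ℝ) / 10) * (x : ℝ) ^ ((9 : ℝ) / 10) < (k : ℝ) * ((l : ℝ) * q) :=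
      mul_lt_mul' hk hlq (by positivity) (lt_of_lt_of_le (Real.rpow_pos_of_pos hx0 _) hk)
    have h4 := H.Xle
    rw [h2] at h3
    have h5 : (k : ℝ) * ((l : ℝ) * q) = l * k * q := by ring
    linarith only [h1, h3, h4]
  have hM1 : (2 : ℝ) < M1 := by
    have h1 := H.M1ge
    have h2 := Real.add_one_lt_exp (show (1 : ℝ) ≠ 0 by norm_num)
    linarith only [h1, h2]
  have hM1' : 2 < M1 := by exact_mod_cast hM1
  set M : ℕ := 2 ^ j with hMdef
  have hkM : ∀ k : ℕ, M1 < k → Nat.clog 2 k = j → M / 2 < k ∧ k ≤ M ∧ (M : ℝ) < 2 * k := by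
    intro k hk hc
    have h1 : k ≤ M := by
      rw [hMdef, ← hc]
      exact Nat.le_pow_clog (by norm_num) k
    have h2 : 2 ^ (Nat.clog 2 k).pred < k := Nat.pow_pred_clog_lt_self (by norm_num) (by omega)
    have h3 : 0 < Nat.clog 2 k := Nat.clog_pos (by norm_num) (by omega)
    have h4 : M = 2 * 2 ^ (Nat.clog 2 k).pred := by
      rw [hMdef, ← hc, ← pow_succ']
      congr 1
      exact (Nat.succ_pred_eq_of_pos h3).symm
    refine ⟨by omega, h1, ?_⟩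
    have : M < 2 * k := by omega
    exact_mod_cast this
  have hk0x := hkx k0 q0 (hnk0 ▸ hSN hn0) hlq0
  obtain ⟨hMk1, hMk2, hMk3⟩ := hkM k0 hMk0 hcl0
  have hMx : (M : ℝ) < 2 * (x : ℝ) ^ ((1 : ℝ) / 10) := by linarith only [hk0x, hMk3]
  have hMM1 : M1 ≤ M := by omega
  have hM0 : (0 : ℝ) < M := by
    have : (0 : ℝ) < M1 := by linarith only [hι, hι0, hM1]
    exact lt_of_lt_of_le this (by exact_mod_cast hMM1)
  have hM3 : (3 : ℝ) ≤ M := by
    have : 3 ≤ M := by omega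
    exact_mod_cast this
  have hlM : (l : ℝ) * M ≤ 2 * (x : ℝ) ^ ((3 : ℝ) / 5) := by
    have h1 : (l : ℝ) * M ≤ (x : ℝ) ^ ((1 : ℝ) / 2) * (2 * (x : ℝ) ^ ((1 : ℝ) / 10)) :=
      mul_le_mul hl2 hMx.le hM0.le (by positivity)
    have h2 : (x : ℝ) ^ ((1 : ℝ) / 2) * (x : ℝ) ^ ((1 : ℝ) / 10) = (x : ℝ) ^ ((3 : ℝ) / 5) := by
      rw [← Real.rpow_add hx0]
      norm_num
    calc (l : ℝ) * M ≤ (x : ℝ) ^ ((1 : ℝ) / 2) * (2 * (x : ℝ) ^ ((1 : ℝ) / 10)) := h1
      _ = 2 * ((x : ℝ) ^ ((1 : ℝ) / 2) * (x : ℝ) ^ ((1 : ℝ) / 10)) := by ring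
      _ = _ := by rw [h2]
  have hlM0 : (0 : ℝ) < l * M := mul_pos hl0 hM0
  have hlM' : (l : ℝ) * M ≤ (x : ℝ) ^ ((13 : ℝ) / 20) := by
    have h2 : (x : ℝ) ^ ((1 : ℝ) / 20) * (x : ℝ) ^ ((3 : ℝ) / 5) = (x : ℝ) ^ ((13 : ℝ) / 20) := by
      rw [← Real.rpow_add hx0]
      norm_num
    have h3 : (2 : ℝ) ≤ (x : ℝ) ^ ((1 : ℝ) / 20) := by
      rw [rpow_exp hx0]
      have := Real.add_one_le_exp (Real.log x * (1 / 20))
      linarith only [hL, hι, hι0, this]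
    have h4 : (0 : ℝ) ≤ (x : ℝ) ^ ((3 : ℝ) / 5) := by positivity
    nlinarith only [hlM, h2, hι, hι0, h3, hlM0]
  -- the size of Y
  set Y : ℝ := X / (l * M) with hY
  have hYx : 4 * (x : ℝ) ^ ((1 : ℝ) / 4) ≤ Y := by
    rw [hY, le_div_iff₀ hlM0]
    have h1 : (x : ℝ) * Real.exp (-(Real.log x / 20)) ≤ X :=
      le_trans (mul_le_mul_of_nonneg_left (Real.exp_le_exp.2 (neg_le_neg hs)) hx0.le) H.leX
    have h2 : (x : ℝ) * Real.exp (-(Real.log x / 20)) = Real.exp (Real.log x * (19 / 20)) := by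
      nth_rewrite 1 [← Real.exp_log hx0]
      rw [← Real.exp_add]
      congr 1
      ring
    have h3 : 4 * (x : ℝ) ^ ((1 : ℝ) / 4) * ((l : ℝ) * M) ≤
        4 * (x : ℝ) ^ ((1 : ℝ) / 4) * (2 * (x : ℝ) ^ ((3 : ℝ) / 5)) :=
      mul_le_mul_of_nonneg_left hlM (by positivity)
    have h4 : 4 * (x : ℝ) ^ ((1 : ℝ) / 4) * (2 * (x : ℝ) ^ ((3 : ℝ) / 5)) =
        8 * Real.exp (Real.log x * (17 / 20)) := by
      rw [rpow_exp hx0, rpow_exp hx0]
      have : Real.exp (Real.log x * (17 / 20)) =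
          Real.exp (Real.log x * (1 / 4)) * Real.exp (Real.log x * (3 / 5)) := by
        rw [← Real.exp_add]
        congr 1
        ring
      rw [this]
      ring
    have h5 : 8 * Real.exp (Real.log x * (17 / 20)) ≤ Real.exp (Real.log x * (19 / 20)) := by
      have h6 : Real.exp (Real.log x * (19 / 20)) =
          Real.exp (Real.log x * (1 / 10)) * Real.exp (Real.log x * (17 / 20)) := by
        rw [← Real.exp_add]
        congr 1
        ring
      rw [h6]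
      refine mul_le_mul_of_nonneg_right ?_ (Real.exp_pos _).le
      have := Real.add_one_le_exp (Real.log x * (1 / 10))
      linarith only [hL, hι, hι0, this]
    linarith only [h1, h2, h3, h4, h5]
  have hx14 : (8 : ℝ) ≤ (x : ℝ) ^ ((1 : ℝ) / 4) := by
    rw [rpow_exp hx0]
    have := Real.add_one_le_exp (Real.log x * (1 / 4))
    linarith only [hL, hι, hι0, this]
  have hY8 : 8 ≤ Y := by linarith only [hι, hι0, hYx, hx14]
  have hY0 : 0 < Y := by linarith only [hι, hι0, hYx, hx14]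
  have hYx2 : 2 * Y < x := by
    rw [hY]
    have h1 : X / (l * M) ≤ x / 6 := by
      rw [div_le_div_iff₀ hlM0 (by norm_num)]
      have h2 : (6 : ℝ) ≤ l * M := by nlinarith only [hl2', hM3]
      have h3 := H.Xle
      nlinarith only [h3, h2]
    linarith only [hι, hι0, hYx, hx14, h1]
  -- the set of primes
  classical
  set E : Finset ℕ := (Finset.range (x + 1)).filter
    (fun q => q.Prime ∧ X / (4 * (l * M)) < q ∧ (q : ℝ) ≤ 2 * (X / (l * M)) ∧ Ba ≤ b q) with hE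
  have hEcard : (E.card : ℝ) ≤ (14 * C0 * Real.exp (-(((1 - ι) * Ba) ^ a))) * (X / (l * M)) /
      Real.log x := by
    have h1 := hCov (fun q => Ba ≤ b q) Y E hY8 (by
      intro q hq
      rw [hE, Finset.mem_filter] at hq
      obtain ⟨_, h1, h2, h3, h4⟩ := hq
      refine ⟨h1, h4, ?_, by rw [hY]; exact h3⟩
      have : Y / 4 = X / (4 * (l * M)) := by
        rw [hY]
        field_simp
      rw [this]
      exact h2)
    set y1 : ℕ := ⌊2 * Y⌋₊ with hy1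
    have hy1le : (y1 : ℝ) ≤ 2 * Y := Nat.floor_le (by linarith only [hι, hι0, hYx, hx14])
    have hy1ge : 2 * Y < (y1 : ℝ) + 1 := Nat.lt_floor_add_one _
    have hy2le : ((y1 / 2 : ℕ) : ℝ) ≤ Y := by
      have : (2 : ℝ) * ((y1 / 2 : ℕ) : ℝ) ≤ y1 := by exact_mod_cast Nat.mul_div_le y1 2
      linarith only [hy1le, this]
    have hy3le : ((y1 / 4 : ℕ) : ℝ) ≤ Y / 2 := by
      have : (4 : ℝ) * ((y1 / 4 : ℕ) : ℝ) ≤ y1 := by exact_mod_cast Nat.mul_div_le y1 4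
      linarith only [hy1le, this]
    have hy3ge : (x : ℝ) ^ ((1 : ℝ) / 4) ≤ ((y1 / 4 : ℕ) : ℝ) := by
      have h2 : y1 < 4 * (y1 / 4) + 4 := by omega
      have h3 : (y1 : ℝ) < 4 * ((y1 / 4 : ℕ) : ℝ) + 4 := by exact_mod_cast h2
      linarith only [hι, hι0, hYx, hx14, hy1ge, h3]
    have hy2ge : (x : ℝ) ^ ((1 : ℝ) / 4) ≤ ((y1 / 2 : ℕ) : ℝ) := by
      have h2 : y1 / 4 ≤ y1 / 2 := by omega
      have h3 : ((y1 / 4 : ℕ) : ℝ) ≤ ((y1 / 2 : ℕ) : ℝ) := by exact_mod_cast h2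
      linarith only [hy3ge, h3]
    have hy1ge' : (x : ℝ) ^ ((1 : ℝ) / 4) ≤ (y1 : ℝ) := by
      have h2 : y1 / 4 ≤ y1 := by omega
      have h3 : ((y1 / 4 : ℕ) : ℝ) ≤ (y1 : ℝ) := by exact_mod_cast h2
      linarith only [hι, hι0, hYx, hx14, hy1ge]
    have hy1x : y1 < x := by
      have : (y1 : ℝ) < x := by linarith only [hYx2, hy1le]
      exact_mod_cast this
    have b1 := blk_le hC H.tail H.huB' hL hBa y1 hy1ge' hy1x
    have b2 := blk_le hC H.tail H.huB' hL hBa (y1 / 2) hy2ge (by omega)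
    have b3 := blk_le hC H.tail H.huB' hL hBa (y1 / 4) hy3ge (by omega)
    have h2 : (E.card : ℝ) ≤ (blk (fun q => Ba ≤ b q) y1 : ℝ) +
        (blk (fun q => Ba ≤ b q) (y1 / 2) : ℝ) + (blk (fun q => Ba ≤ b q) (y1 / 4) : ℝ) := by
      exact_mod_cast h1
    set W : ℝ := C0 * Real.exp (-(((1 - ι) * Ba) ^ a)) with hW
    have hW0 : 0 ≤ W := by rw [hW]; positivity
    have h3 : (E.card : ℝ) ≤ W * (4 * y1 / Real.log x) + W * (4 * ((y1 / 2 : ℕ) : ℝ) / Real.log x)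
        + W * (4 * ((y1 / 4 : ℕ) : ℝ) / Real.log x) := by linarith only [h2, b1, b2, b3]
    have h4 : W * (4 * y1 / Real.log x) + W * (4 * ((y1 / 2 : ℕ) : ℝ) / Real.log x)
        + W * (4 * ((y1 / 4 : ℕ) : ℝ) / Real.log x) =
        W * 4 * ((y1 : ℝ) + ((y1 / 2 : ℕ) : ℝ) + ((y1 / 4 : ℕ) : ℝ)) / Real.log x := by ring
    rw [h4] at h3
    refine h3.trans ?_
    have h5 : (14 * C0 * Real.exp (-(((1 - ι) * Ba) ^ a))) * (X / (l * M)) / Real.log x =
        W * 4 * (7 / 2 * Y) / Real.log x := by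
      rw [hW, hY]
      ring
    rw [h5]
    refine div_le_div_of_nonneg_right ?_ (by linarith only [hL, hι, hι0])
    refine mul_le_mul_of_nonneg_left ?_ (by positivity)
    linarith only [hy1le, hy2le, hy3le]
  -- the relative density
  set μ : ℝ := 14 * C0 * Real.exp (-(((1 - ι) * Ba) ^ a)) with hμ
  have hBpow : ((1 - ι) * Ba) ^ a ≤ z ^ a := by
    refine pow_le_pow_left₀ (mul_nonneg (by linarith only [hι, hι0]) hBa.le) ?_ a
    nlinarith only [hBaz, hBa, hι0]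
  have hza0 : 0 ≤ z ^ a := by positivity
  have hμge : Real.exp (-(ll x) ^ A) ≤ μ := by
    have h1 : Real.exp (-(ll x) ^ A) ≤ Real.exp (-(((1 - ι) * Ba) ^ a)) := by
      refine Real.exp_le_exp.2 (neg_le_neg ?_)
      have h2 := H.hzA
      have h3 : (0 : ℝ) ≤ a := Nat.cast_nonneg a
      nlinarith only [hBpow, h2, hza0]
    have h2 : Real.exp (-(((1 - ι) * Ba) ^ a)) ≤ μ := by
      rw [hμ]
      have := Real.exp_pos (-(((1 - ι) * Ba) ^ a))
      nlinarith only [hι, this, hι0, hC0]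
    linarith only [h1, h2]
  have hμ0 : 0 < μ := by rw [hμ]; positivity
  have hlog : 1 + max 0 (-Real.log μ) ≤ 1 + z ^ a := by
    have h1 : -Real.log μ ≤ z ^ a := by
      rw [hμ, Real.log_mul (by positivity) (Real.exp_pos _).ne', Real.log_exp]
      have : 0 ≤ Real.log (14 * C0) := Real.log_nonneg (by linarith only [hι, hι0, hC0])
      linarith only [hBpow, this]
    have := max_le hza0 h1
    linarith only [this]
  have hM1l : M1 ≤ l := by
    have : (M1 : ℝ) ≤ l := H.uBM.trans hlx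
    exact_mod_cast this
  have hbil := H.adm.bil l M μ E S (Or.inr ⟨hl, hM1l⟩) hMM1 hlM' hμge (by
    intro q hq
    rw [hE, Finset.mem_filter] at hq
    exact ⟨hq.2.1, hq.2.2.1, hq.2.2.2.1⟩) hEcard hSN (by
    intro n hn
    obtain ⟨k, q, hq, hnk, hMk, hlq, hbq, hcl⟩ := hS n hn
    obtain ⟨h1, h2, h3⟩ := hkM k hMk hcl
    refine ⟨k, q, h1, h2, ?_, hnk⟩
    have hrng := H.adm.rng n (hSN hn)
    rw [hnk] at hrng
    push_cast at hrng
    have hq0 : (0 : ℝ) < q := by exact_mod_cast hq.pos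
    have hkM' : (k : ℝ) ≤ M := by exact_mod_cast h2
    have h4 : X / (4 * (l * M)) < q := by
      rw [div_lt_iff₀ (by positivity)]
      have : (l : ℝ) * k * q ≤ l * M * q :=
        mul_le_mul_of_nonneg_right (mul_le_mul_of_nonneg_left hkM' hl0.le) hq0.le
      linarith only [hrng, this, hrng.1]
    have h5 : (q : ℝ) ≤ 2 * (X / (l * M)) := by
      rw [← mul_div_assoc, le_div_iff₀ hlM0]
      have : (l : ℝ) * M * q ≤ l * (2 * k) * q :=
        mul_le_mul_of_nonneg_right (mul_le_mul_of_nonneg_left h3.le hl0.le) hq0.le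
      linarith only [hrng, this, hrng.2]
    rw [hE, Finset.mem_filter]
    refine ⟨?_, hq, h4, h5, hbq⟩
    rw [Finset.mem_range]
    have : (q : ℝ) < x := by
      rw [← hY] at h5
      linarith only [hYx2, h5]
    have h6 : q < x := by exact_mod_cast this
    omega)
  refine ⟨?_, ?_⟩
  · refine hbil.trans ?_
    have h1 : D * μ * (1 + max 0 (-Real.log μ)) * X ≤ D * μ * (1 + z ^ a) * X := by
      refine mul_le_mul_of_nonneg_right ?_ hX0.le
      exact mul_le_mul_of_nonneg_left hlog (mul_nonneg H.D0 hμ0.le)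
    exact div_le_div_of_nonneg_right h1 (mul_nonneg hl0.le (by linarith only [hL, hι, hι0]))
  · intro _
    have h1 : Real.log M < Real.log 2 + Real.log x * (1 / 10) := by
      have h2 := Real.log_lt_log hM0 hMx
      rw [Real.log_mul (by norm_num) (by positivity), Real.log_rpow hx0] at h2
      linarith only [h2]
    have h2 : Real.log M = j * Real.log 2 := by
      rw [hMdef]
      push_cast
      rw [Real.log_pow]
    rw [h2] at h1
    have h3 := Real.log_two_gt_d9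
    have h4 := Real.log_two_lt_d9
    have h5 : ((j : ℝ) - 1) * Real.log 2 < Real.log x * (1 / 10) := by linarith only [h1]
    by_contra h6
    push Not at h6
    have h7 : (15 / 100 * Real.log x - 2) * Real.log 2 < Real.log x * (1 / 10) := by nlinarith only [hL, hι, hι0, h1, h4, h6, h3]
    nlinarith only [hL, hι, hι0, h1, h4, h6, h3]

/-- one assignment of the two levels -/
theorem assign (hCov : Cover3) {x A A' C M1 : ℕ} {N : Finset ℕ} {X D : ℝ} {a : ℕ}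
    {C0 ρ ι uB : ℝ} {b : ℕ → ℝ} {z δ : ℝ} (hC : Cst a C0 ρ ι)
    (H : TH x A A' C M1 N X D a C0 ρ ι uB b z δ) (hL : 400 ≤ Real.log x)
    (hs : (ll x) ^ A' ≤ Real.log x / 20) {Ba Bb : ℝ} (hBa : 0 < Ba) (hBaz : Ba ≤ z)
    (hLM : ∀ S : Finset ℕ, (∀ q ∈ S, q.Prime ∧ (x : ℝ) ^ uB ≤ q ∧
      (q : ℝ) ≤ (x : ℝ) ^ ((1 : ℝ) / 2) ∧ Bb ≤ b q) →
      ∑ q ∈ S, (1 : ℝ) / q ≤ 16 * C0 * Real.exp (-(((1 - ι) * Bb) ^ a) - (ρ / 2) ^ a))
    (S : Finset ℕ) (hSN : S ⊆ N)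
    (hS : ∀ n ∈ S, ∃ k l q : ℕ, l.Prime ∧ q.Prime ∧ n = l * k * q ∧ M1 < k ∧
      (x : ℝ) ^ uB ≤ l ∧ (l : ℝ) ≤ (x : ℝ) ^ ((1 : ℝ) / 2) ∧
      (x : ℝ) ^ ((9 : ℝ) / 10) < ((l : ℝ) * q) ∧ Ba ≤ b q ∧ Bb ≤ b l) :
    (S.card : ℝ) ≤ 34 * D * X * C0 ^ 2 * (1 + z ^ a) *
      Real.exp (-(((1 - ι) * Ba) ^ a) - ((1 - ι) * Bb) ^ a - (ρ / 2) ^ a) := by
  classical
  have hx0 : (0 : ℝ) < x := by
    rcases Nat.eq_zero_or_pos x with h | h
    · rw [h] at hL
      simp at hL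
      linarith
    · exact_mod_cast h
  have hx1 : (1 : ℝ) ≤ x := by
    by_contra h
    push Not at h
    have := Real.log_nonpos hx0.le h.le
    linarith
  have hL0 : 0 < Real.log x := by linarith
  have hX0 : 0 < X := lt_of_lt_of_le (mul_pos hx0 (Real.exp_pos _)) H.leX
  have hC0 := hC.hC0
  have hz := H.hz
  have hD := H.D0
  set P : Finset ℕ := (Finset.range (x + 1)).filter (fun l => l.Prime ∧ (x : ℝ) ^ uB ≤ l ∧
      (l : ℝ) ≤ (x : ℝ) ^ ((1 : ℝ) / 2) ∧ Bb ≤ b l) with hP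
  set J : ℕ := ⌊15 / 100 * Real.log x⌋₊ with hJ
  set T : ℕ → ℕ → Finset ℕ := fun l j => S.filter (fun n => ∃ k q : ℕ, q.Prime ∧
      n = l * k * q ∧ M1 < k ∧ (x : ℝ) ^ ((9 : ℝ) / 10) < ((l : ℝ) * q) ∧ Ba ≤ b q ∧
      Nat.clog 2 k = j) with hT
  set c : ℝ := 14 * C0 * Real.exp (-(((1 - ι) * Ba) ^ a)) with hc
  have hc0 : 0 ≤ c := by rw [hc]; positivity
  have hTb : ∀ l ∈ P, ∀ j, ((T l j).card : ℝ) ≤ D * c * (1 + z ^ a) * X / (l * Real.log x) ∧
      ((T l j).Nonempty → ((j : ℝ) + 1) ≤ 15 / 100 * Real.log x) := by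
    intro l hl j
    rw [hP, Finset.mem_filter] at hl
    refine block hCov hC H hL hs hBa hBaz l j hl.2.1 hl.2.2.1 hl.2.2.2.1 (T l j)
      ((Finset.filter_subset _ _).trans hSN) ?_
    intro n hn
    rw [hT, Finset.mem_filter] at hn
    exact hn.2
  have hsub : S ⊆ P.biUnion (fun l => (Finset.range J).biUnion (fun j => T l j)) := by
    intro n hn
    obtain ⟨k, l, q, hl, hq, hnk, hMk, hlx, hl2, hlq, hbq, hbl⟩ := hS n hn
    have hlP : l ∈ P := by
      rw [hP, Finset.mem_filter, Finset.mem_range]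
      refine ⟨?_, hl, hlx, hl2, hbl⟩
      have h1 : (l : ℝ) ≤ x := hl2.trans (by
        calc (x : ℝ) ^ ((1 : ℝ) / 2) ≤ (x : ℝ) ^ (1 : ℝ) :=
              Real.rpow_le_rpow_of_exponent_le hx1 (by norm_num)
          _ = x := Real.rpow_one _)
      have h2 : l ≤ x := by exact_mod_cast h1
      omega
    have hnT : n ∈ T l (Nat.clog 2 k) := by
      rw [hT, Finset.mem_filter]
      exact ⟨hn, k, q, hq, hnk, hMk, hlq, hbq, rfl⟩
    rw [Finset.mem_biUnion]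
    refine ⟨l, hlP, ?_⟩
    rw [Finset.mem_biUnion]
    refine ⟨Nat.clog 2 k, ?_, hnT⟩
    rw [Finset.mem_range, hJ]
    have h3 := (hTb l hlP (Nat.clog 2 k)).2 ⟨n, hnT⟩
    have h4 : Nat.clog 2 k + 1 ≤ ⌊15 / 100 * Real.log x⌋₊ := Nat.le_floor (by
      push_cast
      exact h3)
    omega
  have h1 : (S.card : ℝ) ≤ ∑ l ∈ P, ∑ j ∈ Finset.range J, ((T l j).card : ℝ) := by
    have h2 := (Finset.card_le_card hsub).trans Finset.card_biUnion_le
    have h3 : ∑ l ∈ P, ((Finset.range J).biUnion (fun j => T l j)).card ≤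
        ∑ l ∈ P, ∑ j ∈ Finset.range J, (T l j).card :=
      Finset.sum_le_sum (fun l _ => Finset.card_biUnion_le)
    exact_mod_cast h2.trans h3
  have h2 : ∑ l ∈ P, ∑ j ∈ Finset.range J, ((T l j).card : ℝ) ≤
      ∑ l ∈ P, (15 / 100 * (D * c * (1 + z ^ a) * X)) * ((1 : ℝ) / l) := by
    refine Finset.sum_le_sum (fun l hl => ?_)
    have hl' := hl
    rw [hP, Finset.mem_filter] at hl'
    have hl0 : (0 : ℝ) < l := by exact_mod_cast hl'.2.1.pos
    have h3 : ∑ j ∈ Finset.range J, ((T l j).card : ℝ) ≤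
        ∑ _j ∈ Finset.range J, D * c * (1 + z ^ a) * X / (l * Real.log x) :=
      Finset.sum_le_sum (fun j _ => (hTb l hl j).1)
    refine h3.trans ?_
    rw [Finset.sum_const, Finset.card_range, nsmul_eq_mul]
    have h4 : (J : ℝ) ≤ 15 / 100 * Real.log x := Nat.floor_le (by linarith only [hL])
    have h5 : 0 ≤ D * c * (1 + z ^ a) * X / (l * Real.log x) := by positivity
    refine (mul_le_mul_of_nonneg_right h4 h5).trans (le_of_eq ?_)
    field_simp
  have h3 : ∑ l ∈ P, (15 / 100 * (D * c * (1 + z ^ a) * X)) * ((1 : ℝ) / l) ≤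
      (15 / 100 * (D * c * (1 + z ^ a) * X)) *
        (16 * C0 * Real.exp (-(((1 - ι) * Bb) ^ a) - (ρ / 2) ^ a)) := by
    rw [← Finset.mul_sum]
    refine mul_le_mul_of_nonneg_left (hLM P ?_) (by positivity)
    intro q hq
    rw [hP, Finset.mem_filter] at hq
    exact hq.2
  refine (h1.trans (h2.trans h3)).trans ?_
  have h4 : Real.exp (-(((1 - ι) * Ba) ^ a) - ((1 - ι) * Bb) ^ a - (ρ / 2) ^ a) =
      Real.exp (-(((1 - ι) * Ba) ^ a)) *
        Real.exp (-(((1 - ι) * Bb) ^ a) - (ρ / 2) ^ a) := by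
    rw [← Real.exp_add]
    congr 1
    ring
  rw [h4, hc]
  have h5 : (15 / 100 * (D * (14 * C0 * Real.exp (-(((1 - ι) * Ba) ^ a))) * (1 + z ^ a) * X)) *
        (16 * C0 * Real.exp (-(((1 - ι) * Bb) ^ a) - (ρ / 2) ^ a)) =
      (336 / 10) * (D * X * C0 ^ 2 * (1 + z ^ a) * (Real.exp (-(((1 - ι) * Ba) ^ a)) *
        Real.exp (-(((1 - ι) * Bb) ^ a) - (ρ / 2) ^ a))) := by ring
  rw [h5]
  have h6 : 0 ≤ D * X * C0 ^ 2 * (1 + z ^ a) * (Real.exp (-(((1 - ι) * Ba) ^ a)) *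
        Real.exp (-(((1 - ι) * Bb) ^ a) - (ρ / 2) ^ a)) := by positivity
  linarith only [h1, h2, h3]

theorem typeB2a (hLM : LM) (hCov : Cover3) : TypeB2a := by
  intro a C0 ρ ι hC A A' C
  obtain ⟨X1, hX1⟩ := hLM a C0 ρ ι hC A'
  obtain ⟨X2, hX2⟩ := large A'
  refine ⟨max X1 X2, ?_⟩
  intro x M1 N X D uB b z δ S hx H hSN hS
  classical
  obtain ⟨hL, hs⟩ := hX2 x (le_trans (le_max_right _ _) hx)
  have hlm := hX1 x uB b (le_trans (le_max_left _ _) hx) H.huB H.tail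
  have hz := H.hz
  have hδ0 := H.hδ
  have hδ1 : δ ≤ 1 / 2 := by
    refine H.hδ'.trans ?_
    have ha : (2 : ℝ) ≤ a := by exact_mod_cast hC.ha
    have h1 : (1 : ℝ) ≤ (4 * z) ^ a := one_le_pow₀ (by linarith only [hz])
    rw [div_le_div_iff₀ (by positivity) (by norm_num)]
    nlinarith only [ha, h1]
  have hzd : 0 < z - δ := by linarith
  have hz2 : 0 < z / 2 := by linarith only [hz, hδ0, hδ1]
  set S1 : Finset ℕ := S.filter (fun n => ∃ k l q : ℕ, l.Prime ∧ q.Prime ∧ n = l * k * q ∧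
      M1 < k ∧ (x : ℝ) ^ uB ≤ l ∧ (l : ℝ) ≤ (x : ℝ) ^ ((1 : ℝ) / 2) ∧
      (x : ℝ) ^ ((9 : ℝ) / 10) < ((l : ℝ) * q) ∧ z - δ ≤ b q ∧ z / 2 ≤ b l) with hS1
  set S2 : Finset ℕ := S.filter (fun n => ∃ k l q : ℕ, l.Prime ∧ q.Prime ∧ n = l * k * q ∧
      M1 < k ∧ (x : ℝ) ^ uB ≤ l ∧ (l : ℝ) ≤ (x : ℝ) ^ ((1 : ℝ) / 2) ∧
      (x : ℝ) ^ ((9 : ℝ) / 10) < ((l : ℝ) * q) ∧ z / 2 ≤ b q ∧ z - δ ≤ b l) with hS2
  have hsub : S ⊆ S1 ∪ S2 := by
    intro n hn
    obtain ⟨k, l, q, hl, hq, hnk, hMk, hlx, hl2, hlq, hb⟩ := hS n hn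
    rw [Finset.mem_union]
    rcases hb with ⟨h1, h2⟩ | ⟨h1, h2⟩
    · left
      rw [hS1, Finset.mem_filter]
      exact ⟨hn, k, l, q, hl, hq, hnk, hMk, hlx, hl2, hlq, h1, h2⟩
    · right
      rw [hS2, Finset.mem_filter]
      exact ⟨hn, k, l, q, hl, hq, hnk, hMk, hlx, hl2, hlq, h1, h2⟩
  have c1 := assign hCov hC H hL hs (Ba := z - δ) (Bb := z / 2) hzd (by linarith)
    (fun S hS => (hlm (z / 2) S hz2).1 hS) S1 ((Finset.filter_subset _ _).trans hSN) (by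
      intro n hn
      rw [hS1, Finset.mem_filter] at hn
      exact hn.2)
  have c2 := assign hCov hC H hL hs (Ba := z / 2) (Bb := z - δ) hz2 (by linarith only [hz, hδ0, hδ1])
    (fun S hS => (hlm (z - δ) S hzd).1 hS) S2 ((Finset.filter_subset _ _).trans hSN) (by
      intro n hn
      rw [hS2, Finset.mem_filter] at hn
      exact hn.2)
  have h1 : (S.card : ℝ) ≤ S1.card + S2.card := by
    exact_mod_cast (Finset.card_le_card hsub).trans (Finset.card_union_le _ _)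
  have e1 : Real.exp (-(((1 - ι) * (z - δ)) ^ a) - ((1 - ι) * (z / 2)) ^ a - (ρ / 2) ^ a) =
      Ez a ρ ι δ z := rfl
  have e2 : Real.exp (-(((1 - ι) * (z / 2)) ^ a) - ((1 - ι) * (z - δ)) ^ a - (ρ / 2) ^ a) =
      Ez a ρ ι δ z := by
    unfold Ez
    congr 1
    ring
  rw [e1] at c1
  rw [e2] at c2
  have hX0 : 0 < X := by
    refine lt_of_lt_of_le (mul_pos ?_ (Real.exp_pos _)) H.leX
    rcases Nat.eq_zero_or_pos x with h | h
    · rw [h] at hL
      simp at hL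
      linarith only [hδ0, hδ1, hL]
    · exact_mod_cast h
  have h2 : 0 ≤ D * X * C0 ^ 2 * (1 + z ^ a) * Ez a ρ ι δ z := by
    have := H.D0
    have h3 : 0 ≤ Ez a ρ ι δ z := (Real.exp_pos _).le
    positivity
  linarith only [c1, c2, h1]

end

end Pool.Agent.Helper30.TOT
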